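import Pool.Agent.Y485.UGS.Stm

/-!
# Short relations force an automorphism of an abelian group to be quasi-unipotent
(statement `S_QU` from `S_KRON`)
-/

set_option autoImplicit false

open Polynomial

namespace Pool.Agent.Y306.UGS

open Pool.Agent.Y485.UGS

/-- roots of polynomials with coefficients `-1, 0, 1` -/
theorem root_lt (P : ℤ[X]) (hP : P ≠ 0) (h1 : ∀ j, |P.coeff j| ≤ 1) (w : ℂ)
    (hw : (P.map (Int.castRingHom ℂ)).IsRoot w) : ‖w‖ < 2 := by
  have hinj : Function.Injective (Int.castRingHom ℂ) := Int.cast_injective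
  have hp0 : P.map (Int.castRingHom ℂ) ≠ 0 := (Polynomial.map_ne_zero_iff hinj).2 hP
  have hlt := Polynomial.IsRoot.norm_lt_cauchyBound hp0 hw
  have hc : ∀ j, ‖(P.map (Int.castRingHom ℂ)).coeff j‖ ≤ 1 := by
    intro j
    rw [Polynomial.coeff_map]
    show ‖((P.coeff j : ℤ) : ℂ)‖ ≤ 1
    rw [Complex.norm_intCast]
    exact_mod_cast h1 j
  have hl : ‖(P.map (Int.castRingHom ℂ)).leadingCoeff‖₊ = 1 := by
    rw [Polynomial.leadingCoeff_map_of_injective hinj]
    have h2 : P.leadingCoeff ≠ 0 := Polynomial.leadingCoeff_ne_zero.2 hP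
    have h3 : |P.leadingCoeff| = 1 := le_antisymm (h1 _) (Int.one_le_abs h2)
    apply NNReal.eq
    show ‖((P.leadingCoeff : ℤ) : ℂ)‖ = 1
    rw [Complex.norm_intCast]
    exact_mod_cast h3
  have hb : cauchyBound (P.map (Int.castRingHom ℂ)) ≤ 2 := by
    unfold cauchyBound
    rw [hl, div_one]
    have h4 : Finset.sup (Finset.range (P.map (Int.castRingHom ℂ)).natDegree)
        (fun x => ‖(P.map (Int.castRingHom ℂ)).coeff x‖₊) ≤ 1 := Finset.sup_le (fun j _ => hc j)
    calc _ ≤ (1 : NNReal) + 1 := by gcongr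
      _ = 2 := by norm_num
  have h5 : ‖w‖₊ < 2 := lt_of_lt_of_le hlt hb
  exact_mod_cast h5

section

variable {A : Type} [AddCommGroup A]

theorem exists_poly (u : Module.End ℤ A) (m N : ℕ) (a : A) (c : Fin N → ℤ) (hc : c ≠ 0)
    (h1 : ∀ t, |c t| ≤ 1) (h2 : ∑ t, c t • (u ^ (m * (t : ℕ))) a = 0) :
    ∃ P : ℤ[X], P ≠ 0 ∧ (∀ j, |P.coeff j| ≤ 1) ∧ (aeval (u ^ m) P) a = 0 := by
  have hco : ∀ j, (∑ t : Fin N, C (c t) * X ^ (t : ℕ)).coeff j =
      if h : j < N then c ⟨j, h⟩ else 0 := by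
    intro j
    rw [Polynomial.finsetSum_coeff]
    simp only [Polynomial.coeff_C_mul, Polynomial.coeff_X_pow, mul_ite, mul_one, mul_zero]
    split_ifs with h
    · rw [Finset.sum_eq_single ⟨j, h⟩]
      · simp
      · intro b _ hb
        rw [if_neg]
        intro h3
        apply hb
        exact Fin.ext h3.symm
      · simp
    · apply Finset.sum_eq_zero
      intro b _
      rw [if_neg]
      intro h3
      exact h (h3 ▸ b.2)
  refine ⟨∑ t : Fin N, C (c t) * X ^ (t : ℕ), ?_, ?_, ?_⟩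
  · intro h0
    apply hc
    funext t
    have h3 := hco t
    rw [h0, Polynomial.coeff_zero, dif_pos t.2] at h3
    exact h3.symm
  · intro j
    rw [hco]
    split_ifs with h
    · exact h1 _
    · simp
  · rw [map_sum, LinearMap.sum_apply, ← h2]
    refine Finset.sum_congr rfl fun t _ => ?_
    rw [map_mul, aeval_C, map_pow, aeval_X, ← pow_mul, Algebra.algebraMap_eq_smul_one,
      smul_mul_assoc, one_mul, LinearMap.smul_apply]

theorem mem_comap (h : Module.End ℤ A) :
    Submodule.torsion ℤ A ≤ (Submodule.torsion ℤ A).comap h := by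
  intro x hx
  rw [Submodule.mem_comap]
  rw [Submodule.mem_torsion_iff] at hx ⊢
  obtain ⟨n, hn⟩ := hx
  refine ⟨n, ?_⟩
  have h1 : n • h x = h (n • x) := (map_smul h (n : ℤ) x).symm
  rw [h1, hn, map_zero]

/-- the induced endomorphism -/
noncomputable def qt (h : Module.End ℤ A) : Module.End ℤ (A ⧸ Submodule.torsion ℤ A) :=
  (Submodule.torsion ℤ A).mapQ (Submodule.torsion ℤ A) h (mem_comap h)

theorem qt_mk (h : Module.End ℤ A) (a : A) :
    qt h (Submodule.Quotient.mk a) = Submodule.Quotient.mk (h a) := rfl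

theorem qt_mul (h h' : Module.End ℤ A) (e : h * h' = 1) : qt h * qt h' = 1 := by
  apply LinearMap.ext
  intro x
  obtain ⟨a, rfl⟩ := Submodule.Quotient.mk_surjective _ x
  show qt h (qt h' (Submodule.Quotient.mk a)) = _
  rw [qt_mk, qt_mk]
  have : h (h' a) = (h * h') a := rfl
  rw [this, e]
  rfl

theorem qt_aeval (h : Module.End ℤ A) (p : ℤ[X]) : ∀ a : A,
    (aeval (qt h) p) (Submodule.Quotient.mk a) = Submodule.Quotient.mk (aeval h p a) := by
  induction p using Polynomial.induction_on with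
  | C c =>
    intro a
    rw [aeval_C, aeval_C, Module.algebraMap_end_apply, Module.algebraMap_end_apply]
    rfl
  | add p q hp hq =>
    intro a
    rw [map_add, map_add, LinearMap.add_apply, LinearMap.add_apply, hp, hq]
    rfl
  | monomial n c ih =>
    intro a
    have e : (C c * X ^ (n + 1) : ℤ[X]) = (C c * X ^ n) * X := by rw [pow_succ, mul_assoc]
    rw [e, map_mul (aeval (qt h)) (C c * X ^ n) X, map_mul (aeval h) (C c * X ^ n) X, aeval_X,
      aeval_X]
    show (aeval (qt h) (C c * X ^ n)) (qt h (Submodule.Quotient.mk a)) =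
      Submodule.Quotient.mk ((aeval h (C c * X ^ n)) (h a))
    rw [qt_mk, ih]

theorem prod_dvd (q0 : ℕ) (R : Multiset ℂ) (hR : ∀ z ∈ R, z ^ q0 = 1) :
    (R.map (fun z => (X - C z : ℂ[X]))).prod ∣ (X ^ q0 - 1) ^ (Multiset.card R) := by
  induction R using Multiset.induction_on with
  | empty => simp
  | cons z R ih =>
    rw [Multiset.map_cons, Multiset.prod_cons, Multiset.card_cons, pow_succ, mul_comm]
    apply mul_dvd_mul (ih fun z hz => hR z (Multiset.mem_cons_of_mem hz))
    rw [Polynomial.dvd_iff_isRoot, Polynomial.IsRoot.def]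
    simp [hR z (Multiset.mem_cons_self z R)]

/-- the matrix step -/
theorem matrix_step (hK : S_KRON) {d : ℕ} (M M' : Matrix (Fin d) (Fin d) ℤ) (hMM : M' * M = 1)
    (N m : ℕ) (hd : d ≤ N) (hm : 16 * N ^ 2 ≤ m) {ι : Type} (S : Finset ι) (P : ι → ℤ[X])
    (hP0 : ∀ a ∈ S, P a ≠ 0) (hP1 : ∀ a ∈ S, ∀ j, |(P a).coeff j| ≤ 1)
    (hP : aeval (M ^ m) (∏ a ∈ S, P a) = 0) :
    ∃ q0 r0 : ℕ, 0 < q0 ∧ (M ^ q0 - 1) ^ r0 = 0 := by
  classical
  set φ : Matrix (Fin d) (Fin d) ℤ →+* Matrix (Fin d) (Fin d) ℂ :=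
    (Int.castRingHom ℂ).mapMatrix with hφ
  have hφinj : Function.Injective φ := by
    intro X Y h
    apply Matrix.map_injective (f := (Int.castRingHom ℂ)) Int.cast_injective
    exact h
  have hchar : M.charpoly.map (Int.castRingHom ℂ) = (φ M).charpoly := by
    rw [hφ, RingHom.mapMatrix_apply, Matrix.charpoly_map]
  -- the roots
  have hroot : ∀ z : ℂ, (M.charpoly.map (Int.castRingHom ℂ)).IsRoot z →
      z ≠ 0 ∧ ‖z‖ ^ (16 * d ^ 2) < 2 := by
    intro z hz
    rw [hchar, ← Matrix.charpoly_toLin', ← Module.End.hasEigenvalue_iff_isRoot_charpoly] at hz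
    obtain ⟨x, hx⟩ := hz.exists_hasEigenvector
    have hx0 : x ≠ 0 := hx.2
    have hval : Matrix.toLin' (φ M) x = z • x := hx.apply_eq_smul
    have hz0 : z ≠ 0 := by
      rintro rfl
      apply hx0
      rw [zero_smul] at hval
      have h1 : Matrix.toLin' (φ M') (Matrix.toLin' (φ M) x) = x := by
        rw [← LinearMap.comp_apply, ← Matrix.toLin'_mul, ← map_mul, hMM, map_one,
          Matrix.toLin'_one, LinearMap.id_apply]
      rw [hval, map_zero] at h1
      exact h1.symm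
    refine ⟨hz0, ?_⟩
    -- the product polynomial vanishes at `z ^ m`
    have h2 : aeval (φ M) ((∏ a ∈ S, P a).comp (X ^ m)) = 0 := by
      have h3 : aeval (φ M) ((∏ a ∈ S, P a).comp (X ^ m)) =
          φ (aeval M ((∏ a ∈ S, P a).comp (X ^ m))) :=
        Polynomial.aeval_algHom_apply φ.toIntAlgHom M _
      rw [h3, Polynomial.aeval_comp, map_pow, aeval_X, hP, map_zero]
    have h4 : aeval (φ M) (((∏ a ∈ S, P a).comp (X ^ m)).map (algebraMap ℤ ℂ)) = 0 := by
      rw [Polynomial.aeval_map_algebraMap]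
      exact h2
    have h5 : aeval (Matrix.toLin' (φ M))
        (((∏ a ∈ S, P a).comp (X ^ m)).map (algebraMap ℤ ℂ)) = 0 := by
      have h6 : aeval (Matrix.toLinAlgEquiv' (φ M))
          (((∏ a ∈ S, P a).comp (X ^ m)).map (algebraMap ℤ ℂ)) =
          Matrix.toLinAlgEquiv' (aeval (φ M)
            (((∏ a ∈ S, P a).comp (X ^ m)).map (algebraMap ℤ ℂ))) :=
        Polynomial.aeval_algHom_apply
          (Matrix.toLinAlgEquiv' (R := ℂ) (n := Fin d)).toAlgHom (φ M) _
      rw [h4, map_zero] at h6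
      exact h6
    have h7 := Module.End.aeval_apply_of_hasEigenvector
      (p := ((∏ a ∈ S, P a).comp (X ^ m)).map (algebraMap ℤ ℂ)) hx
    rw [h5, LinearMap.zero_apply] at h7
    have h8 : eval z (((∏ a ∈ S, P a).comp (X ^ m)).map (algebraMap ℤ ℂ)) = 0 := by
      rcases smul_eq_zero.1 h7.symm with h | h
      · exact h
      · exact absurd h hx0
    rw [Polynomial.map_comp, Polynomial.eval_comp, Polynomial.map_pow, Polynomial.map_X,
      Polynomial.eval_pow, Polynomial.eval_X, Polynomial.map_prod, Polynomial.eval_prod,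
      Finset.prod_eq_zero_iff] at h8
    obtain ⟨a, ha, h9⟩ := h8
    have h10 : ‖z ^ m‖ < 2 := root_lt (P a) (hP0 a ha) (hP1 a ha) (z ^ m) h9
    rw [norm_pow] at h10
    have hdm : 16 * d ^ 2 ≤ m := le_trans (Nat.mul_le_mul_left _ (Nat.pow_le_pow_left hd 2)) hm
    rcases le_or_gt ‖z‖ 1 with h11 | h11
    · exact lt_of_le_of_lt (pow_le_one₀ (norm_nonneg _) h11) (by norm_num)
    · exact lt_of_le_of_lt (pow_le_pow_right₀ h11.le hdm) h10
  have hkr := hK d M (fun z hz => (hroot z hz).2)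
  -- a common exponent
  set R := ((φ M).charpoly).roots with hR
  have hRroot : ∀ z ∈ R, ∃ q : ℕ, 0 < q ∧ z ^ q = 1 := by
    intro z hz
    have h1 : (M.charpoly.map (Int.castRingHom ℂ)).IsRoot z := by
      rw [hchar]
      exact Polynomial.isRoot_of_mem_roots hz
    rcases hkr z h1 with h2 | h2
    · exact absurd h2 (hroot z h1).1
    · exact h2
  choose! qf hq0 hq1 using hRroot
  set q0 := ∏ z ∈ R.toFinset, qf z with hq
  have hq0pos : 0 < q0 := Finset.prod_pos fun z hz => hq0 z (Multiset.mem_toFinset.1 hz)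
  have hRq : ∀ z ∈ R, z ^ q0 = 1 := by
    intro z hz
    have h1 : qf z ∣ q0 := Finset.dvd_prod_of_mem qf (Multiset.mem_toFinset.2 hz)
    obtain ⟨k, hk⟩ := h1
    rw [hk, pow_mul, hq1 z hz, one_pow]
  have hdvd : (φ M).charpoly ∣ (X ^ q0 - 1) ^ (Multiset.card R) := by
    have h1 := (IsAlgClosed.splits (φ M).charpoly).eq_prod_roots_of_monic
      (Matrix.charpoly_monic (φ M))
    rw [h1]
    exact prod_dvd q0 R hRq
  refine ⟨q0, Multiset.card R, hq0pos, ?_⟩
  apply hφinj
  rw [map_zero, map_pow, map_sub, map_pow, map_one]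
  obtain ⟨p, hp⟩ := hdvd
  have h2 : aeval (φ M) ((X ^ q0 - 1) ^ (Multiset.card R) : ℂ[X]) = 0 := by
    rw [hp, map_mul, Matrix.aeval_self_charpoly, zero_mul]
  rw [map_pow, map_sub, map_pow, aeval_X, map_one] at h2
  exact h2

theorem main (hK : S_KRON) (f f' : Module.End ℤ A) (h1 : f * f' = 1) (h2 : f' * f = 1)
    (N m : ℕ) (S : Finset A) (hS : S.card ≤ N) (hgen : Submodule.span ℤ (S : Set A) = ⊤)
    (hm : 16 * N ^ 2 ≤ m)
    (hrel : ∀ a ∈ S, ∃ c : Fin N → ℤ, c ≠ 0 ∧ (∀ t, |c t| ≤ 1) ∧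
      ∑ t, c t • (f ^ (m * (t : ℕ))) a = 0) :
    ∃ q r : ℕ, 0 < q ∧ (f ^ q - 1) ^ r = 0 := by
  classical
  have hpoly : ∀ a ∈ S, ∃ P : ℤ[X], P ≠ 0 ∧ (∀ j, |P.coeff j| ≤ 1) ∧
      (aeval (f ^ m) P) a = 0 := by
    intro a ha
    obtain ⟨c, hc, hc1, hc2⟩ := hrel a ha
    exact exists_poly f m N a c hc hc1 hc2
  choose! P hP0 hP1 hPa using hpoly
  have hQ : aeval (f ^ m) (∏ a ∈ S, P a) = 0 := by
    apply LinearMap.ext_on hgen
    intro a ha
    have ha' : a ∈ S := ha
    rw [← Finset.prod_erase_mul S P ha', map_mul]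
    show (aeval (f ^ m) (∏ x ∈ S.erase a, P x)) ((aeval (f ^ m) (P a)) a) = 0
    rw [hPa a ha', map_zero]
  -- finiteness
  have hfin : Module.Finite ℤ A := ⟨⟨S, hgen⟩⟩
  have hnoeth : IsNoetherian ℤ A := inferInstance
  have hfree : Module.Free ℤ (A ⧸ Submodule.torsion ℤ A) := inferInstance
  set d := Module.finrank ℤ (A ⧸ Submodule.torsion ℤ A) with hd
  have hdN : d ≤ N := by
    refine le_trans ?_ hS
    have h3 : Submodule.span ℤ (Set.range (fun a : S =>
        (Submodule.Quotient.mk (a : A) : A ⧸ Submodule.torsion ℤ A))) = ⊤ := by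
      have h4 : Set.range (fun a : S =>
          (Submodule.Quotient.mk (a : A) : A ⧸ Submodule.torsion ℤ A)) =
          (Submodule.mkQ (Submodule.torsion ℤ A)) '' (S : Set A) := by
        ext x
        simp
      rw [h4, Submodule.span_image, hgen, Submodule.map_top, Submodule.range_mkQ]
    have h5 := finrank_le_of_span_eq_top h3
    rwa [Fintype.card_coe] at h5
  let b : Module.Basis (Fin d) ℤ (A ⧸ Submodule.torsion ℤ A) := Module.finBasis ℤ _
  set Φ := LinearMap.toMatrixAlgEquiv b with hΦ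
  have hmat : ∃ q0 r0 : ℕ, 0 < q0 ∧ ((Φ (qt f)) ^ q0 - 1) ^ r0 = 0 := by
    refine matrix_step hK (Φ (qt f)) (Φ (qt f')) ?_ N m hdN hm S P hP0 hP1 ?_
    · rw [← map_mul, qt_mul f' f h2, map_one]
    · have h3 : aeval (f) ((∏ a ∈ S, P a).comp (X ^ m)) = 0 := by
        rw [Polynomial.aeval_comp, map_pow, aeval_X, hQ]
      have h4 : aeval (qt f) ((∏ a ∈ S, P a).comp (X ^ m)) = 0 := by
        apply LinearMap.ext
        intro x
        obtain ⟨a, rfl⟩ := Submodule.Quotient.mk_surjective _ x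
        rw [qt_aeval, h3]
        rfl
      have h5 : aeval (Φ (qt f)) ((∏ a ∈ S, P a).comp (X ^ m)) =
          Φ (aeval (qt f) ((∏ a ∈ S, P a).comp (X ^ m))) :=
        Polynomial.aeval_algHom_apply Φ.toAlgHom (qt f) _
      rw [h4, map_zero, Polynomial.aeval_comp, map_pow, aeval_X] at h5
      exact h5
  obtain ⟨q0, r0, hq0, hq⟩ := hmat
  have hq' : (qt f ^ q0 - 1) ^ r0 = 0 := by
    apply Φ.injective
    rw [map_zero, map_pow, map_sub, map_pow, map_one]
    exact hq
  have hmemT : ∀ a, ((f ^ q0 - 1) ^ r0) a ∈ Submodule.torsion ℤ A := by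
    intro a
    have h3 := qt_aeval f ((X ^ q0 - 1) ^ r0) a
    rw [map_pow, map_sub, map_pow, aeval_X, map_one, hq', map_pow, map_sub, map_pow, aeval_X,
      map_one, LinearMap.zero_apply] at h3
    exact (Submodule.Quotient.mk_eq_zero _).1 h3.symm
  -- the torsion subgroup
  have hTfin : Finite (Submodule.torsion ℤ A) := by
    have : Module.Finite ℤ (Submodule.torsion ℤ A) := inferInstance
    exact Module.finite_of_fg_torsion _ (Submodule.torsion_isTorsion)
  let e : Equiv.Perm (Submodule.torsion ℤ A) :=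
    { toFun := fun x => ⟨f x, mem_comap f x.2⟩
      invFun := fun x => ⟨f' x, mem_comap f' x.2⟩
      left_inv := fun x => by
        apply Subtype.ext
        show (f' * f) (x : A) = x
        rw [h2]
        rfl
      right_inv := fun x => by
        apply Subtype.ext
        show (f * f') (x : A) = x
        rw [h1]
        rfl }
  have he : ∀ (k : ℕ) (x : Submodule.torsion ℤ A), (((e ^ k) x : Submodule.torsion ℤ A) : A) =
      (f ^ k) (x : A) := by
    intro k
    induction k with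
    | zero => intro x; rfl
    | succ k ih =>
      intro x
      rw [pow_succ, pow_succ]
      show (((e ^ k) (e x) : Submodule.torsion ℤ A) : A) = (f ^ k) (f (x : A))
      rw [ih]
      rfl
  set q1 := Nat.card (Equiv.Perm (Submodule.torsion ℤ A)) with hq1
  have hq1pos : 0 < q1 := Nat.card_pos
  have hfix : ∀ t ∈ Submodule.torsion ℤ A, (f ^ q1) t = t := by
    intro t ht
    have h3 := he q1 ⟨t, ht⟩
    rw [hq1, pow_card_eq_one'] at h3
    rw [hq1]
    exact h3.symm
  have hfix2 : ∀ (k : ℕ), ∀ t ∈ Submodule.torsion ℤ A, ((f ^ q1) ^ k) t = t := by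
    intro k
    induction k with
    | zero => intro t _; rfl
    | succ k ih =>
      intro t ht
      rw [pow_succ]
      show ((f ^ q1) ^ k) ((f ^ q1) t) = t
      rw [hfix t ht, ih t ht]
  refine ⟨q0 * q1, r0 + 1, Nat.mul_pos hq0 hq1pos, ?_⟩
  apply LinearMap.ext
  intro a
  rw [pow_succ']
  show (f ^ (q0 * q1) - 1) (((f ^ (q0 * q1) - 1) ^ r0) a) = 0
  have hmem : ((f ^ (q0 * q1) - 1) ^ r0) a ∈ Submodule.torsion ℤ A := by
    have h3 : f ^ (q0 * q1) - 1 = (∑ i ∈ Finset.range q1, (f ^ q0) ^ i) * (f ^ q0 - 1) := by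
      rw [geom_sum_mul, pow_mul]
    have hcomm : Commute (∑ i ∈ Finset.range q1, (f ^ q0) ^ i) (f ^ q0 - 1) := by
      apply Commute.sub_right _ (Commute.one_right _)
      apply Commute.sum_left
      intro i _
      exact (Commute.refl (f ^ q0)).pow_left i
    rw [h3, hcomm.mul_pow]
    show ((∑ i ∈ Finset.range q1, (f ^ q0) ^ i) ^ r0) (((f ^ q0 - 1) ^ r0) a) ∈ _
    exact mem_comap _ (hmemT a)
  have h4 := hfix2 q0 _ hmem
  rw [← pow_mul, mul_comm q1 q0] at h4
  rw [LinearMap.sub_apply, h4]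
  simp

end

theorem qu : S_KRON → S_QU := by
  intro hK A _ σ N m S hσ hS hgen hm hrel
  classical
  set Ψ := addMonoidEndRingEquivInt A with hΨ
  obtain ⟨v, hv⟩ := hσ
  have h1 : σ * (↑v⁻¹ : AddMonoid.End A) = 1 := by rw [← hv]; exact v.mul_inv
  have h2 : (↑v⁻¹ : AddMonoid.End A) * σ = 1 := by rw [← hv]; exact v.inv_mul
  have hspan : Submodule.span ℤ (S : Set A) = ⊤ := by
    apply Submodule.toAddSubgroup_injective
    rw [Submodule.span_int_eq_addSubgroupClosure, hgen]
    rfl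
  obtain ⟨q, r, hq, hqr⟩ := main hK (Ψ σ) (Ψ (↑v⁻¹ : AddMonoid.End A))
    (by rw [← map_mul, h1, map_one]) (by rw [← map_mul, h2, map_one]) N m S hS hspan hm
    (fun a ha => by
      obtain ⟨c, hc, hc1, hc2⟩ := hrel a ha
      refine ⟨c, hc, hc1, ?_⟩
      rw [← hc2]
      refine Finset.sum_congr rfl fun t _ => ?_
      rw [← map_pow]
      rfl)
  refine ⟨q, r, hq, ?_⟩
  apply Ψ.injective
  rw [map_zero, map_pow, map_sub, map_pow, map_one]
  exact hqr

end Pool.Agent.Y306.UGS
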